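import Mathlib

/-! Euler characteristics of families of rational vector spaces. -/

set_option autoImplicit false

namespace Pool.Agent.Q187.SO

/-- `∑ (-1)^(j+1) dim M j`. -/
noncomputable def eul (M : ℤ → Type) [∀ j, AddCommGroup (M j)] [∀ j, Module ℚ (M j)] : ℤ :=
  ∑ᶠ j : ℤ, ((j + 1).negOnePow : ℤ) * (Module.finrank ℚ (M j) : ℤ)

/-- Each `M j` is finite dimensional and almost all vanish. -/
def IsFin (M : ℤ → Type) [∀ j, AddCommGroup (M j)] [∀ j, Module ℚ (M j)] : Prop :=
  (∀ j, FiniteDimensional ℚ (M j)) ∧ {j | Nontrivial (M j)}.Finite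

section
variable {M M' : ℤ → Type} [∀ j, AddCommGroup (M j)] [∀ j, Module ℚ (M j)]
  [∀ j, AddCommGroup (M' j)] [∀ j, Module ℚ (M' j)]

theorem eul_congr (h : ∀ j, Nonempty (M j ≃ₗ[ℚ] M' j)) : eul M = eul M' := by
  unfold eul
  refine finsum_congr fun j => ?_
  obtain ⟨e⟩ := h j
  rw [e.finrank_eq]

theorem isFin_congr (h : ∀ j, Nonempty (M j ≃ₗ[ℚ] M' j)) (hM : IsFin M) : IsFin M' := by
  refine ⟨fun j => ?_, hM.2.subset fun j hj => ?_⟩
  · obtain ⟨e⟩ := h j
    have := hM.1 j
    exact Module.Finite.equiv e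
  · obtain ⟨e⟩ := h j
    have : Nontrivial (M' j) := hj
    exact e.toEquiv.nontrivial

theorem support_finite (hM : IsFin M) :
    (Function.support fun j => ((j + 1).negOnePow : ℤ) * (Module.finrank ℚ (M j) : ℤ)).Finite := by
  refine hM.2.subset fun j hj => ?_
  have := hM.1 j
  rw [Function.mem_support] at hj
  have h1 : Module.finrank ℚ (M j) ≠ 0 := fun h => hj (by rw [h]; simp)
  exact Module.finrank_pos_iff.1 (Nat.pos_of_ne_zero h1)

theorem eul_prod (hM : IsFin M) (hM' : IsFin M') :
    eul (fun j => M j × M' j) = eul M + eul M' := by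
  unfold eul
  rw [← finsum_add_distrib (support_finite hM) (support_finite hM')]
  refine finsum_congr fun j => ?_
  have := hM.1 j
  have := hM'.1 j
  rw [Module.finrank_prod]
  push_cast
  ring

theorem isFin_prod (hM : IsFin M) (hM' : IsFin M') : IsFin (fun j => M j × M' j) := by
  refine ⟨fun j => ?_, (hM.2.union hM'.2).subset fun j hj => ?_⟩
  · have := hM.1 j
    have := hM'.1 j
    infer_instance
  · have hj' : Nontrivial (M j × M' j) := hj
    by_contra hc
    rw [Set.mem_union, not_or] at hc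
    have h1 : Subsingleton (M j) := not_nontrivial_iff_subsingleton.1 hc.1
    have h2 : Subsingleton (M' j) := not_nontrivial_iff_subsingleton.1 hc.2
    exact not_nontrivial (M j × M' j) hj'

theorem eul_shift (a : ℤ) : eul (fun j => M (j - 2 * a)) = eul M := by
  have h1 := finsum_comp_equiv (Equiv.subRight (2 * a))
    (f := fun j : ℤ => ((j + 1).negOnePow : ℤ) * (Module.finrank ℚ (M j) : ℤ))
  unfold eul
  rw [← h1]
  refine finsum_congr fun j => ?_
  have h : ((Equiv.subRight (2 * a)) j + 1).negOnePow = (j + 1).negOnePow := by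
    have h2 : j + 1 = ((Equiv.subRight (2 * a)) j + 1) + 2 * a := by
      rw [Equiv.subRight_apply]
      ring
    rw [h2, Int.negOnePow_add _ (2 * a), Int.negOnePow_two_mul, mul_one]
  rw [h]
  rfl

theorem isFin_shift (a : ℤ) (hM : IsFin M) : IsFin (fun j => M (j - 2 * a)) := by
  refine ⟨fun j => hM.1 _, ?_⟩
  have h1 := hM.2.preimage (f := fun j : ℤ => j - 2 * a) (fun x _ y _ h => by
    simpa using h)
  exact h1

end

section
variable {ι : Type} [Fintype ι] {M : ι → ℤ → Type} [∀ a j, AddCommGroup (M a j)]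
  [∀ a j, Module ℚ (M a j)]

theorem eul_pi (hM : ∀ a, IsFin (M a)) : eul (fun j => ∀ a, M a j) = ∑ a, eul (M a) := by
  unfold eul
  rw [← finsum_sum_comm Finset.univ _ fun a _ => support_finite (hM a)]
  refine finsum_congr fun j => ?_
  have := fun a => (hM a).1 j
  rw [Module.finrank_pi_fintype]
  push_cast
  rw [Finset.mul_sum]

theorem isFin_pi (hM : ∀ a, IsFin (M a)) : IsFin (fun j => ∀ a, M a j) := by
  refine ⟨fun j => ?_, (Set.finite_iUnion fun a => (hM a).2).subset fun j hj => ?_⟩
  · have := fun a => (hM a).1 j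
    infer_instance
  · have hj' : Nontrivial (∀ a, M a j) := hj
    by_contra hc
    rw [Set.mem_iUnion, not_exists] at hc
    have h1 : ∀ a, Subsingleton (M a j) := fun a => not_nontrivial_iff_subsingleton.1 (hc a)
    exact not_nontrivial (∀ a, M a j) hj'

end

end Pool.Agent.Q187.SO
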