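import Pool.Agent.Q187.SO.Euler

/-! Orders of zeta functions at non-positive integers: projective spaces and blow-ups. -/

set_option autoImplicit false

open Polynomial

namespace Pool.Agent.Q187.SO

/-- Regular schemes, projective over `ℤ`: dimension, zeta function (continued to the complex plane
as far as possible), rational motivic cohomology. -/
structure Data where
  /-- regular projective schemes over `ℤ` -/
  Sch : Type
  /-- Krull dimension -/
  dim : Sch → ℕ
  /-- zeta function -/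
  zeta : Sch → ℂ → ℂ
  /-- `H X n j` is `H^j(X, ℚ(n))` -/
  H : Sch → ℤ → ℤ → Type
  [acg : ∀ X n j, AddCommGroup (H X n j)]
  [mod : ∀ X n j, Module ℚ (H X n j)]

attribute [instance] Data.acg Data.mod

variable (D : Data)

/-- `∑_j (-1)^(j+1) dim H^j(X, ℚ(n))`. -/
noncomputable def Data.euler (X : D.Sch) (n : ℤ) : ℤ := eul (D.H X n)

/-- `H^j(X, ℚ(n))` is finite dimensional, and zero for almost all `j`. -/
def Data.Finite (X : D.Sch) (n : ℤ) : Prop := IsFin (D.H X n)

/-- Soulé's formula for `X` at `s = -k`. -/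
def Data.SouleAt (X : D.Sch) (k : ℕ) : Prop :=
  meromorphicOrderAt (D.zeta X) (-(k : ℂ)) = ((D.euler X (D.dim X + k) : ℤ) : WithTop ℤ)

/-- The assertion of the question for `X` (with its two assumptions). -/
def Data.Question (X : D.Sch) : Prop :=
  MeromorphicAt (D.zeta X) 0 → D.Finite X (D.dim X) → D.SouleAt X 0

/-- `P` is the product of `X` with projective space of dimension `m`. -/
structure Data.IsProjSpace (X P : D.Sch) (m : ℕ) : Prop where
  dim_eq : D.dim P = D.dim X + m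
  zeta_eq : ∀ s, D.zeta P s = ∏ a ∈ Finset.range (m + 1), D.zeta X (s - a)
  coh : ∀ n j : ℤ, Nonempty (D.H P n j ≃ₗ[ℚ]
    (∀ a : Fin (m + 1), D.H X (n - (a : ℕ)) (j - 2 * ((a : ℕ) : ℤ))))

/-- `B` is the blow-up of `X` along the regular closed subscheme `Y` of codimension `r + 1`. -/
structure Data.IsBlowUp (X Y B : D.Sch) (r : ℕ) : Prop where
  dim_eq : D.dim B = D.dim X
  codim : D.dim X = D.dim Y + (r + 1)
  zeta_eq : ∀ s, D.zeta B s = D.zeta X s * ∏ a ∈ Finset.range r, D.zeta Y (s - (a + 1 : ℕ))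
  coh : ∀ n j : ℤ, Nonempty (D.H B n j ≃ₗ[ℚ] (D.H X n j ×
    (∀ a : Fin r, D.H Y (n - ((a : ℕ) + 1 : ℕ)) (j - 2 * (((a : ℕ) + 1 : ℕ) : ℤ)))))

/-- `Y` is smooth projective over a field with `q` elements: its zeta function is a rational
function of `q^(-s)` whose zeros and poles have absolute value at most one (Deligne). -/
def Data.IsOverFiniteField (Y : D.Sch) (q : ℕ) : Prop :=
  1 < q ∧ ∃ P Q : ℂ[X], (∀ s, D.zeta Y s =
    P.eval ((q : ℂ) ^ (-s)) / Q.eval ((q : ℂ) ^ (-s))) ∧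
    ∀ u : ℂ, (P.eval u = 0 ∨ Q.eval u = 0) → ‖u‖ ≤ 1

variable {D}

theorem order_shift (X : D.Sch) (s a : ℂ) :
    meromorphicOrderAt (fun z => D.zeta X (z - a)) s = meromorphicOrderAt (D.zeta X) (s - a) :=
  meromorphicOrderAt_comp_sub_const_eq_meromorphicOrderAt (f := D.zeta X) (c := a) (x := s)

theorem mero_shift {X : D.Sch} {s a : ℂ} (h : MeromorphicAt (D.zeta X) (s - a)) :
    MeromorphicAt (fun z => D.zeta X (z - a)) s :=
  MeromorphicAt.comp_analyticAt (g := fun z => z - a) h (by fun_prop)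

section ProjSpace
variable {X P : D.Sch} {m : ℕ} (h : D.IsProjSpace X P m)
include h

theorem IsProjSpace.mero (s : ℂ) (hX : ∀ a : ℕ, MeromorphicAt (D.zeta X) (s - a)) :
    MeromorphicAt (D.zeta P) s := by
  have h1 : D.zeta P = fun s => ∏ a ∈ Finset.range (m + 1), D.zeta X (s - a) := funext h.zeta_eq
  rw [h1]
  have h2 : (fun s => ∏ a ∈ Finset.range (m + 1), D.zeta X (s - a)) =
      ∏ a ∈ Finset.range (m + 1), fun s => D.zeta X (s - a) := by
    ext s
    rw [Finset.prod_apply]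
  rw [h2]
  exact MeromorphicAt.prod fun a _ => mero_shift (hX a)

theorem IsProjSpace.order (s : ℂ) (hX : ∀ a : ℕ, MeromorphicAt (D.zeta X) (s - a)) :
    meromorphicOrderAt (D.zeta P) s =
      ∑ a ∈ Finset.range (m + 1), meromorphicOrderAt (D.zeta X) (s - a) := by
  have h1 : D.zeta P = fun s => ∏ a ∈ Finset.range (m + 1), D.zeta X (s - a) := funext h.zeta_eq
  rw [h1, meromorphicOrderAt_fun_prod (f := fun (a : ℕ) z => D.zeta X (z - a))
    fun a _ => mero_shift (hX a)]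
  exact Finset.sum_congr rfl fun a _ => order_shift X s a

theorem IsProjSpace.finite {n : ℤ} (hX : ∀ a : ℕ, a ≤ m → D.Finite X (n - a)) : D.Finite P n := by
  refine isFin_congr (M := fun j => ∀ a : Fin (m + 1),
    D.H X (n - (a : ℕ)) (j - 2 * ((a : ℕ) : ℤ)))
    (fun j => (h.coh n j).map LinearEquiv.symm) ?_
  exact isFin_pi (M := fun (a : Fin (m + 1)) j => D.H X (n - (a : ℕ)) (j - 2 * ((a : ℕ) : ℤ)))
    fun a => isFin_shift (M := D.H X (n - (a : ℕ))) _ (hX a (by omega))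

theorem IsProjSpace.euler {n : ℤ} (hX : ∀ a : ℕ, a ≤ m → D.Finite X (n - a)) :
    D.euler P n = ∑ a ∈ Finset.range (m + 1), D.euler X (n - a) := by
  unfold Data.euler
  rw [eul_congr (M' := fun j => ∀ a : Fin (m + 1),
    D.H X (n - (a : ℕ)) (j - 2 * ((a : ℕ) : ℤ))) (h.coh n),
    eul_pi (M := fun (a : Fin (m + 1)) j => D.H X (n - (a : ℕ)) (j - 2 * ((a : ℕ) : ℤ)))
    fun a => isFin_shift (M := D.H X (n - (a : ℕ))) _ (hX a (by omega))]
  rw [← Fin.sum_univ_eq_sum_range (fun a => eul (D.H X (n - a)))]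
  exact Finset.sum_congr rfl fun a _ => eul_shift (M := D.H X (n - (a : ℕ))) _

end ProjSpace

/-- Soulé's formula at all non-positive integers from the question for `X × P^m`. -/
theorem soule_iff {X : D.Sch} {P : ℕ → D.Sch} (hP : ∀ m, D.IsProjSpace X (P m) m)
    (hX : ∀ k : ℕ, MeromorphicAt (D.zeta X) (-(k : ℂ)))
    (hF : ∀ k : ℕ, D.Finite X (D.dim X + k)) :
    (∀ m, D.Question (P m)) ↔ ∀ k, D.SouleAt X k := by
  replace hX : ∀ k : ℕ, MeromorphicAt (D.zeta X) (0 - (k : ℂ)) := fun k => by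
    rw [zero_sub]
    exact hX k
  have hdim : ∀ m, (D.dim (P m) : ℤ) = D.dim X + m := fun m => by
    rw [(hP m).dim_eq]; push_cast; ring
  have hFa : ∀ m a : ℕ, a ≤ m → D.Finite X (((D.dim (P m) : ℕ) : ℤ) - a) := by
    intro m a ha
    have h1 := hF (m - a)
    rw [hdim]
    rwa [Nat.cast_sub ha, ← add_sub_assoc] at h1
  have hE : ∀ m, D.euler (P m) (D.dim (P m)) =
      ∑ k ∈ Finset.range (m + 1), D.euler X (D.dim X + k) := by
    intro m
    rw [IsProjSpace.euler (hP m) (hFa m), ← Finset.sum_range_reflect]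
    refine Finset.sum_congr rfl fun a ha => ?_
    have ha' : a ≤ m := by
      rw [Finset.mem_range] at ha
      omega
    congr 1
    rw [hdim, show m + 1 - 1 - a = m - a by omega, Nat.cast_sub ha']
    ring
  have hO : ∀ m, meromorphicOrderAt (D.zeta (P m)) 0 =
      ∑ k ∈ Finset.range (m + 1), meromorphicOrderAt (D.zeta X) (-(k : ℂ)) := by
    intro m
    rw [IsProjSpace.order (hP m) 0 hX]
    exact Finset.sum_congr rfl fun a _ => by rw [zero_sub]
  have hQ : ∀ m, D.Question (P m) ↔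
      ∑ k ∈ Finset.range (m + 1), meromorphicOrderAt (D.zeta X) (-(k : ℂ)) =
      ((∑ k ∈ Finset.range (m + 1), D.euler X (D.dim X + k) : ℤ) : WithTop ℤ) := by
    intro m
    rw [← hO, ← hE]
    have h1 : D.SouleAt (P m) 0 ↔ meromorphicOrderAt (D.zeta (P m)) 0 =
        ((D.euler (P m) (D.dim (P m)) : ℤ) : WithTop ℤ) := by
      unfold Data.SouleAt
      simp
    rw [← h1]
    exact ⟨fun h => h (IsProjSpace.mero (hP m) 0 hX) (IsProjSpace.finite (hP m) (hFa m)),
      fun h _ _ => h⟩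
  constructor
  · intro h k
    induction k using Nat.strong_induction_on with
    | _ k ih =>
      have h1 := (hQ k).1 (h k)
      rw [Finset.sum_range_succ, Finset.sum_range_succ] at h1
      have h2 : ∑ k ∈ Finset.range k, meromorphicOrderAt (D.zeta X) (-(k : ℂ)) =
          ((∑ k ∈ Finset.range k, D.euler X (D.dim X + k) : ℤ) : WithTop ℤ) := by
        rw [WithTop.coe_sum]
        exact Finset.sum_congr rfl fun a ha => ih a (Finset.mem_range.1 ha)
      rw [h2, WithTop.coe_add] at h1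
      exact (WithTop.add_left_inj WithTop.coe_ne_top).1 h1
  · intro h m
    rw [hQ, WithTop.coe_sum]
    exact Finset.sum_congr rfl fun k _ => h k

/-- The zeta function of a smooth projective variety over a finite field has order zero at the
negative integers. -/
theorem order_finite {Y : D.Sch} {q : ℕ} (h : D.IsOverFiniteField Y q) (s : ℂ) (hs : s.re < 0) :
    MeromorphicAt (D.zeta Y) s ∧ meromorphicOrderAt (D.zeta Y) s = 0 := by
  obtain ⟨hq, P, Q, h1, h2⟩ := h
  have hq0 : (0 : ℝ) < q := by exact_mod_cast (by omega : 0 < q)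
  have hqc : (q : ℂ) ≠ 0 := by exact_mod_cast (by omega : q ≠ 0)
  have hn : 1 < ‖(q : ℂ) ^ (-s)‖ := by
    have h3 : ‖((q : ℝ) : ℂ) ^ (-s)‖ = (q : ℝ) ^ (-s).re :=
      Complex.norm_cpow_eq_rpow_re_of_pos hq0 (-s)
    have h4 : ((q : ℝ) : ℂ) = (q : ℂ) := by norm_cast
    rw [h4] at h3
    rw [h3, Complex.neg_re]
    exact Real.one_lt_rpow (by exact_mod_cast hq) (by linarith)
  have hP : P.eval ((q : ℂ) ^ (-s)) ≠ 0 := fun h => (not_le.2 hn) (h2 _ (Or.inl h))
  have hQ : Q.eval ((q : ℂ) ^ (-s)) ≠ 0 := fun h => (not_le.2 hn) (h2 _ (Or.inr h))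
  have hcp : AnalyticAt ℂ (fun z : ℂ => (q : ℂ) ^ (-z)) s := by
    have h3 : (fun z : ℂ => (q : ℂ) ^ (-z)) = fun z => Complex.exp (Complex.log q * (-z)) := by
      ext z
      rw [Complex.cpow_def_of_ne_zero hqc]
    rw [h3]
    fun_prop
  have hpoly : ∀ R : ℂ[X], AnalyticAt ℂ (fun z : ℂ => R.eval ((q : ℂ) ^ (-z))) s := by
    intro R
    exact (AnalyticOnNhd.eval_polynomial R _ (Set.mem_univ _)).fun_comp hcp
  have han : AnalyticAt ℂ (D.zeta Y) s := by
    have h3 : D.zeta Y = fun z => P.eval ((q : ℂ) ^ (-z)) / Q.eval ((q : ℂ) ^ (-z)) := funext h1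
    rw [h3]
    exact (hpoly P).div (hpoly Q) hQ
  refine ⟨han.meromorphicAt, ?_⟩
  rw [han.meromorphicOrderAt_eq, (AnalyticAt.analyticOrderAt_eq_zero han).2]
  · rfl
  · rw [h1]
    exact div_ne_zero hP hQ

section BlowUp
variable {X Y B : D.Sch} {r : ℕ} (h : D.IsBlowUp X Y B r)
include h

theorem IsBlowUp.mero_order {q : ℕ} (hY : D.IsOverFiniteField Y q) (s : ℂ)
    (hX : MeromorphicAt (D.zeta X) s) (hs : s.re ≤ 0) :
    MeromorphicAt (D.zeta B) s ∧
      meromorphicOrderAt (D.zeta B) s = meromorphicOrderAt (D.zeta X) s := by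
  have h1 : D.zeta B = D.zeta X * ∏ a ∈ Finset.range r, fun s => D.zeta Y (s - (a + 1 : ℕ)) := by
    ext s
    rw [h.zeta_eq, Pi.mul_apply, Finset.prod_apply]
  have h2 : ∀ a ∈ Finset.range r, MeromorphicAt (fun s => D.zeta Y (s - (a + 1 : ℕ))) s ∧
      meromorphicOrderAt (fun s => D.zeta Y (s - (a + 1 : ℕ))) s = 0 := by
    intro a _
    obtain ⟨h3, h4⟩ := order_finite hY (s - (a + 1 : ℕ)) (by
      rw [Complex.sub_re, Complex.natCast_re]
      push_cast
      have : (0 : ℝ) ≤ a := Nat.cast_nonneg a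
      linarith)
    exact ⟨mero_shift h3, by rw [order_shift, h4]⟩
  have h3 : MeromorphicAt (∏ a ∈ Finset.range r, fun s => D.zeta Y (s - (a + 1 : ℕ))) s :=
    MeromorphicAt.prod fun a ha => (h2 a ha).1
  rw [h1]
  refine ⟨hX.mul h3, ?_⟩
  rw [meromorphicOrderAt_mul hX h3, meromorphicOrderAt_prod fun a ha => (h2 a ha).1,
    Finset.sum_eq_zero fun a ha => (h2 a ha).2, add_zero]

theorem IsBlowUp.finite_euler {n : ℤ} (hX : D.Finite X n)
    (hY : ∀ a : ℕ, a < r → D.Finite Y (n - (a + 1 : ℕ))) :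
    D.Finite B n ∧ D.euler B n = D.euler X n +
      ∑ a ∈ Finset.range r, D.euler Y (n - (a + 1 : ℕ)) := by
  have h1 : ∀ a : Fin r, IsFin (fun j =>
      D.H Y (n - ((a : ℕ) + 1 : ℕ)) (j - 2 * (((a : ℕ) + 1 : ℕ) : ℤ))) := fun a =>
    isFin_shift (M := D.H Y (n - ((a : ℕ) + 1 : ℕ))) _ (hY a a.2)
  have h2 : IsFin (fun j => ∀ a : Fin r,
      D.H Y (n - ((a : ℕ) + 1 : ℕ)) (j - 2 * (((a : ℕ) + 1 : ℕ) : ℤ))) :=
    isFin_pi (M := fun (a : Fin r) j =>
      D.H Y (n - ((a : ℕ) + 1 : ℕ)) (j - 2 * (((a : ℕ) + 1 : ℕ) : ℤ))) h1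
  constructor
  · exact isFin_congr (M := fun j => D.H X n j × ∀ a : Fin r,
      D.H Y (n - ((a : ℕ) + 1 : ℕ)) (j - 2 * (((a : ℕ) + 1 : ℕ) : ℤ)))
      (fun j => (h.coh n j).map LinearEquiv.symm) (isFin_prod (M := D.H X n) hX h2)
  · unfold Data.euler
    rw [eul_congr (M' := fun j => D.H X n j × ∀ a : Fin r,
      D.H Y (n - ((a : ℕ) + 1 : ℕ)) (j - 2 * (((a : ℕ) + 1 : ℕ) : ℤ))) (h.coh n),
      eul_prod (M := D.H X n) hX h2,
      eul_pi (M := fun (a : Fin r) j =>
        D.H Y (n - ((a : ℕ) + 1 : ℕ)) (j - 2 * (((a : ℕ) + 1 : ℕ) : ℤ))) h1]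
    rw [← Fin.sum_univ_eq_sum_range (fun a => eul (D.H Y (n - (a + 1 : ℕ))))]
    congr 1
    exact Finset.sum_congr rfl fun a _ => eul_shift (M := D.H Y (n - ((a : ℕ) + 1 : ℕ))) _

end BlowUp

/-- What is known for the ambient scheme: continuation, finiteness and Soulé's formula at all
non-positive integers. -/
structure Data.Known (D : Data) (X : D.Sch) : Prop where
  mero : ∀ k : ℕ, MeromorphicAt (D.zeta X) (-(k : ℂ))
  finite : ∀ k : ℕ, D.Finite X (D.dim X + k)
  soule : ∀ k, D.SouleAt X k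

theorem blowUp_soule {X Y B : D.Sch} {r q : ℕ} (h : D.IsBlowUp X Y B r)
    (hY : D.IsOverFiniteField Y q) (hX : D.Known X)
    (hF : ∀ b : ℕ, D.Finite Y (D.dim Y + (b + 1 : ℕ))) :
    (∀ k : ℕ, MeromorphicAt (D.zeta B) (-(k : ℂ))) ∧ (∀ k : ℕ, D.Finite B (D.dim B + k)) ∧
      ∀ k : ℕ, D.SouleAt B k ↔
        ∑ b ∈ Finset.range r, D.euler Y (D.dim Y + ((k + b) + 1 : ℕ)) = 0 := by
  have hdim : (D.dim X : ℤ) = D.dim Y + r + 1 := by
    rw [h.codim]; push_cast; ring
  have hre : ∀ k : ℕ, (-(k : ℂ)).re ≤ 0 := fun k => by simp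
  have h1 : ∀ k a : ℕ, a < r → (D.dim B : ℤ) + k - (a + 1 : ℕ) =
      D.dim Y + ((k + (r - 1 - a)) + 1 : ℕ) := by
    intro k a ha
    rw [h.dim_eq, hdim]
    push_cast [Nat.cast_sub (show a ≤ r - 1 by omega), Nat.cast_sub (show 1 ≤ r by omega)]
    ring
  have hX' : ∀ k : ℕ, D.Finite X (D.dim B + k) := fun k => by
    rw [h.dim_eq]
    exact hX.finite k
  have hY' : ∀ k a : ℕ, a < r → D.Finite Y ((D.dim B : ℤ) + k - (a + 1 : ℕ)) := fun k a ha => by
    rw [h1 k a ha]
    exact hF _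
  refine ⟨fun k => (IsBlowUp.mero_order h hY _ (hX.mero k) (hre k)).1,
    fun k => (IsBlowUp.finite_euler h (hX' k) (hY' k)).1, fun k => ?_⟩
  unfold Data.SouleAt
  rw [(IsBlowUp.mero_order h hY _ (hX.mero k) (hre k)).2, hX.soule k,
    (IsBlowUp.finite_euler h (hX' k) (hY' k)).2, h.dim_eq]
  have h2 : ∑ a ∈ Finset.range r, D.euler Y ((D.dim X : ℤ) + k - (a + 1 : ℕ)) =
      ∑ b ∈ Finset.range r, D.euler Y (D.dim Y + ((k + b) + 1 : ℕ)) := by
    rw [← Finset.sum_range_reflect]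
    refine Finset.sum_congr rfl fun a ha => ?_
    have ha' := Finset.mem_range.1 ha
    have h3 := h1 k (r - 1 - a) (by omega)
    rw [h.dim_eq] at h3
    rw [h3, show r - 1 - (r - 1 - a) = a by omega]
  rw [h2]
  constructor
  · intro h3
    have h4 := WithTop.coe_injective h3
    linarith
  · intro h3
    rw [h3, add_zero]

theorem Known.question {X : D.Sch} (h : D.Known X) : D.Question X := fun _ _ => h.soule 0

theorem Known.projSpace {X P : D.Sch} {m : ℕ} (hX : D.Known X) (h : D.IsProjSpace X P m) :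
    D.Known P := by
  have hdim : (D.dim P : ℤ) = D.dim X + m := by rw [h.dim_eq]; push_cast; ring
  have hs : ∀ k a : ℕ, -(k : ℂ) - a = -((k + a : ℕ) : ℂ) := fun k a => by push_cast; ring
  have hm : ∀ k a : ℕ, MeromorphicAt (D.zeta X) (-(k : ℂ) - a) := fun k a => by
    rw [hs]
    exact hX.mero _
  have hn : ∀ k a : ℕ, a ≤ m → (D.dim P : ℤ) + k - a = D.dim X + (k + (m - a) : ℕ) := by
    intro k a ha
    rw [hdim]
    push_cast [Nat.cast_sub ha]
    ring
  have hf : ∀ k a : ℕ, a ≤ m → D.Finite X ((D.dim P : ℤ) + k - a) := fun k a ha => by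
    rw [hn k a ha]
    exact hX.finite _
  refine ⟨fun k => IsProjSpace.mero h _ (hm k), fun k => IsProjSpace.finite h (hf k), fun k => ?_⟩
  unfold Data.SouleAt
  rw [IsProjSpace.order h _ (hm k), IsProjSpace.euler h (hf k), ← Finset.sum_range_reflect,
    WithTop.coe_sum]
  refine Finset.sum_congr rfl fun a ha => ?_
  have ha' := Finset.mem_range.1 ha
  rw [hs, hX.soule, hn k a (by omega), show m + 1 - 1 - a = m - a by omega]

theorem Known.blowUp {X Z B : D.Sch} {r : ℕ} (hX : D.Known X) (hZ : D.Known Z)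
    (h : D.IsBlowUp X Z B r) : D.Known B := by
  have hdim : (D.dim X : ℤ) = D.dim Z + r + 1 := by
    rw [h.codim]; push_cast; ring
  have hs : ∀ k a : ℕ, -(k : ℂ) - (a + 1 : ℕ) = -((k + (a + 1) : ℕ) : ℂ) := fun k a => by
    push_cast; ring
  have hn : ∀ k a : ℕ, a < r → (D.dim X : ℤ) + k - (a + 1 : ℕ) =
      D.dim Z + (k + ((r - 1 - a) + 1) : ℕ) := by
    intro k a ha
    rw [hdim]
    push_cast [Nat.cast_sub (show a ≤ r - 1 by omega), Nat.cast_sub (show 1 ≤ r by omega)]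
    ring
  have hX' : ∀ k : ℕ, D.Finite X (D.dim B + k) := fun k => by
    rw [h.dim_eq]
    exact hX.finite k
  have hZ' : ∀ k a : ℕ, a < r → D.Finite Z ((D.dim B : ℤ) + k - (a + 1 : ℕ)) := fun k a ha => by
    rw [h.dim_eq, hn k a ha]
    exact hZ.finite _
  have h1 : D.zeta B = D.zeta X * ∏ a ∈ Finset.range r, fun s => D.zeta Z (s - (a + 1 : ℕ)) := by
    ext s
    rw [h.zeta_eq, Pi.mul_apply, Finset.prod_apply]
  have h2 : ∀ k a : ℕ, MeromorphicAt (fun s => D.zeta Z (s - (a + 1 : ℕ))) (-(k : ℂ)) := by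
    intro k a
    refine mero_shift ?_
    rw [hs]
    exact hZ.mero _
  have h3 : ∀ k : ℕ, MeromorphicAt (∏ a ∈ Finset.range r, fun s => D.zeta Z (s - (a + 1 : ℕ)))
      (-(k : ℂ)) := fun k => MeromorphicAt.prod fun a _ => h2 k a
  refine ⟨fun k => ?_, fun k => (IsBlowUp.finite_euler h (hX' k) (hZ' k)).1, fun k => ?_⟩
  · rw [h1]
    exact (hX.mero k).mul (h3 k)
  · unfold Data.SouleAt
    rw [(IsBlowUp.finite_euler h (hX' k) (hZ' k)).2, h.dim_eq, h1,
      meromorphicOrderAt_mul (hX.mero k) (h3 k), meromorphicOrderAt_prod fun a _ => h2 k a,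
      WithTop.coe_add, hX.soule k]
    congr 1
    rw [← Finset.sum_range_reflect (fun a => D.euler Z ((D.dim X : ℤ) + k - (a + 1 : ℕ))),
      WithTop.coe_sum]
    refine Finset.sum_congr rfl fun a ha => ?_
    have ha' := Finset.mem_range.1 ha
    rw [order_shift, hs, hZ.soule, hn k (r - 1 - a) (by omega),
      show r - 1 - (r - 1 - a) = a by omega]

theorem Known.blowUp_finite {X Y B : D.Sch} {r q : ℕ} (hX : D.Known X)
    (hY : D.IsOverFiniteField Y q) (hF : ∀ b : ℕ, D.Finite Y (D.dim Y + (b + 1 : ℕ)))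
    (h0 : ∀ n : ℕ, D.dim Y < n → D.euler Y n = 0) (h : D.IsBlowUp X Y B r) : D.Known B := by
  obtain ⟨a1, a2, a3⟩ := blowUp_soule h hY hX hF
  refine ⟨a1, a2, fun k => (a3 k).2 (Finset.sum_eq_zero fun b _ => ?_)⟩
  have := h0 (D.dim Y + ((k + b) + 1)) (by omega)
  push_cast at this ⊢
  exact this

/-- Schemes built from those in `S` by products with projective spaces and blow-ups along centres
of the same kind, or along smooth projective varieties over finite fields whose motivic cohomology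
of weight above the dimension is finite with Euler characteristic zero. -/
inductive Built (D : Data) (S : D.Sch → Prop) : D.Sch → Prop
  | base {X : D.Sch} : S X → Built D S X
  | proj {X P : D.Sch} {m : ℕ} : Built D S X → D.IsProjSpace X P m → Built D S P
  | blow {X Z B : D.Sch} {r : ℕ} : Built D S X → Built D S Z → D.IsBlowUp X Z B r → Built D S B
  | blowFinite {X Y B : D.Sch} {r q : ℕ} : Built D S X → D.IsOverFiniteField Y q →
      (∀ n : ℕ, D.dim Y < n → D.Finite Y n ∧ D.euler Y n = 0) → D.IsBlowUp X Y B r → Built D S B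

theorem known_of_built {S : D.Sch → Prop} (hS : ∀ X, S X → D.Known X) {X : D.Sch}
    (h : Built D S X) : D.Known X := by
  induction h with
  | base h => exact hS _ h
  | proj _ h ih => exact Known.projSpace ih h
  | blow _ _ h ih1 ih2 => exact Known.blowUp ih1 ih2 h
  | blowFinite _ hY h0 h ih =>
    refine Known.blowUp_finite ih hY (fun b => ?_) (fun n hn => (h0 n hn).2) h
    have := (h0 _ (Nat.lt_add_of_pos_right (Nat.succ_pos b))).1
    push_cast at this ⊢
    exact this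

theorem window {f : ℕ → ℤ} {r : ℕ} (h1 : ∀ k, ∑ b ∈ Finset.range r, f (k + b) = 0)
    (h2 : ∀ k, ∑ b ∈ Finset.range (r + 1), f (k + b) = 0) (k : ℕ) : f k = 0 := by
  have h3 : ∀ k, f (k + r) = 0 := by
    intro k
    have := h2 k
    rw [Finset.sum_range_succ, h1 k, zero_add] at this
    exact this
  have h4 := h2 k
  rw [Finset.sum_range_succ'] at h4
  have h5 : ∑ b ∈ Finset.range r, f (k + (b + 1)) = 0 := by
    rw [← h1 (k + 1)]
    exact Finset.sum_congr rfl fun b _ => by congr 1; ring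
  rw [h5, zero_add, add_zero] at h4
  exact h4

/-- The question for blow-ups of projective spaces (times projective spaces) along a smooth
projective variety over a finite field. -/
theorem finite_field_iff {Y X₁ X₂ B₁ B₂ : D.Sch} {r q : ℕ} {P₁ P₂ : ℕ → D.Sch}
    (hY : D.IsOverFiniteField Y q) (hF : ∀ b : ℕ, D.Finite Y (D.dim Y + (b + 1 : ℕ)))
    (hX₁ : D.Known X₁) (hX₂ : D.Known X₂) (hB₁ : D.IsBlowUp X₁ Y B₁ r)
    (hB₂ : D.IsBlowUp X₂ Y B₂ (r + 1)) (hP₁ : ∀ m, D.IsProjSpace B₁ (P₁ m) m)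
    (hP₂ : ∀ m, D.IsProjSpace B₂ (P₂ m) m) :
    (∀ m, D.Question (P₁ m) ∧ D.Question (P₂ m)) ↔
      ∀ n : ℕ, D.dim Y < n → D.euler Y n = 0 := by
  obtain ⟨a1, a2, a3⟩ := blowUp_soule hB₁ hY hX₁ hF
  obtain ⟨b1, b2, b3⟩ := blowUp_soule hB₂ hY hX₂ hF
  rw [forall_and, soule_iff hP₁ a1 a2, soule_iff hP₂ b1 b2]
  simp only [a3, b3]
  constructor
  · rintro ⟨h1, h2⟩ n hn
    have h3 := window (f := fun b : ℕ => D.euler Y (D.dim Y + (b + 1 : ℕ))) h1 h2
      (n - D.dim Y - 1)
    have h4 : (D.dim Y : ℤ) + ((n - D.dim Y - 1) + 1 : ℕ) = n := by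
      have : n - D.dim Y - 1 + 1 = n - D.dim Y := by omega
      rw [this, Nat.cast_sub hn.le]
      ring
    simp only [h4] at h3
    exact h3
  · intro h
    have h1 : ∀ b : ℕ, D.euler Y (D.dim Y + (b + 1 : ℕ)) = 0 := fun b => by
      have := h (D.dim Y + (b + 1)) (by omega)
      push_cast at this ⊢
      exact this
    exact ⟨fun k => Finset.sum_eq_zero fun b _ => h1 _, fun k => Finset.sum_eq_zero fun b _ => h1 _⟩

end Pool.Agent.Q187.SO
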